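import Pool.Agent.Helper832_MU.Unr

/-!
# Iwasawa's conjecture over imaginary quadratic fields: reduction to real fields

Let `p` be an odd prime. Number fields are finite subextensions of `Qb / ℚ`, `Qb = AlgebraicClosure ℚ`, and `𝓞 Qb` is
the ring of all algebraic integers. `MuVanishes p F` says that the degrees of the maximal unramified abelian
extensions of exponent `p` of the fields `F L` are bounded, where `L` runs through the layers of the cyclotomic
`ℤ_p`-extension of `ℚ`. By class field theory this is the boundedness of the `p`-ranks of the class groups of the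
layers of the cyclotomic `ℤ_p`-extension of `F`, i.e. `μ = 0`.
-/

set_option autoImplicit false

open NumberField

namespace Pool.Agent.Results.MP_b78433_nt.RealFields

/-- the field of algebraic numbers -/
abbrev Qb := AlgebraicClosure ℚ

/-- `L` is a layer of the cyclotomic `ℤ_p`-extension of `ℚ` (`p` odd): a number field contained in
`ℚ(μ_{p^∞})`, of `p`-power degree. -/
def IsLayer (p : ℕ) (L : IntermediateField ℚ Qb) : Prop :=
  L ≤ IntermediateField.adjoin ℚ {z : Qb | ∃ n, z ^ p ^ n = 1} ∧ ∃ n, Module.finrank ℚ L = p ^ n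

/-- `M / E` is Galois (for `E ≤ M`) -/
def GaloisOver (E M : IntermediateField ℚ Qb) : Prop := ∀ σ ∈ E.fixingSubgroup, ∀ x ∈ M, σ x ∈ M

/-- the Galois group of `M / E` is abelian -/
def AbelianOver (E M : IntermediateField ℚ Qb) : Prop :=
  ∀ σ ∈ E.fixingSubgroup, ∀ τ ∈ E.fixingSubgroup, ∀ x ∈ M, σ (τ x) = τ (σ x)

/-- the Galois group of `M / E` has exponent `p` -/
def ExponentOver (p : ℕ) (E M : IntermediateField ℚ Qb) : Prop :=
  ∀ σ ∈ E.fixingSubgroup, ∀ x ∈ M, (σ ^ p) x = x

/-- the inertia groups of the Galois extension `M / E` are trivial at all maximal ideals -/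
def UnramifiedOver (E M : IntermediateField ℚ Qb) : Prop :=
  ∀ P : Ideal (𝓞 Qb), P.IsMaximal → ∀ σ ∈ E.fixingSubgroup, (∀ y : 𝓞 Qb, σ • y - y ∈ P) →
    ∀ x ∈ M, σ x = x

/-- Every finite extension `M` of `E` which is Galois over `E` with abelian Galois group of exponent `p`, unramified
at all (finite) primes, has degree at most `C` over `E`. -/
def DegreeBound (p : ℕ) (E : IntermediateField ℚ Qb) (C : ℕ) : Prop :=
  ∀ M : IntermediateField ℚ Qb, E ≤ M → FiniteDimensional ℚ M → GaloisOver E M → AbelianOver E M →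
    ExponentOver p E M → UnramifiedOver E M → Module.finrank ℚ M ≤ C * Module.finrank ℚ E

/-- `μ = 0` for the cyclotomic `ℤ_p`-extension of `F` -/
def MuVanishes (p : ℕ) (F : IntermediateField ℚ Qb) : Prop :=
  ∃ C, ∀ L, IsLayer p L → DegreeBound p (F ⊔ L) C

/-- `F` is real with respect to the embedding `φ` -/
def IsReal (φ : Qb →+* ℂ) (F : IntermediateField ℚ Qb) : Prop := ∀ x ∈ F, (φ x).im = 0

open Pool.Agent.Helper832_MU in
theorem degree_iff {p : ℕ} {E : IntermediateField ℚ Qb} {C : ℕ} :
    DegI p unrG E C ↔ DegreeBound p E C := by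
  constructor
  · intro h M h1 h2 h3 h4 h5 h6
    refine h M h1 h2 h3 h4 h5 fun P σ hσ hσE => ?_
    by_cases hP : P.IsMaximal
    · rw [unrG_max hP] at hσ
      exact h6 P hP σ hσE hσ
    · rw [unrG_bot hP, Subgroup.mem_bot] at hσ
      intro x _
      rw [hσ]
      rfl
  · intro h M h1 h2 h3 h4 h5 h6
    refine h M h1 h2 h3 h4 h5 fun P hP σ hσE hσ => h6 P σ ?_ hσE
    rw [unrG_max hP]
    exact hσ

open Pool.Agent.Helper832_MU in
theorem mu_iff {p : ℕ} {F : IntermediateField ℚ Qb} : MuI p unrG F ↔ MuVanishes p F :=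
  exists_congr fun _ => forall_congr' fun _ => forall_congr' fun _ => degree_iff

theorem mono {p : ℕ} [Fact p.Prime] {E F : IntermediateField ℚ Qb} (h : E ≤ F)
    (hF : FiniteDimensional ℚ F) (hm : MuVanishes p F) : MuVanishes p E :=
  mu_iff.1 (Pool.Agent.Helper832_MU.MuI.mono h hF (mu_iff.2 hm))

/-- Let `p` be an odd prime and `k` an imaginary quadratic field. Then `μ = 0` for all finite abelian extensions of
`k` if and only if `μ = 0` for all finite abelian extensions of `ℚ` (this is the theorem of Ferrero and Washington)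
and for all real number fields `E` such that `E k` is Galois over `ℚ` and abelian over `k`. -/
theorem result (p : ℕ) [Fact p.Prime] (hp : p ≠ 2) (φ : Qb →+* ℂ) (k : IntermediateField ℚ Qb)
    (hk : Module.finrank ℚ k = 2) (hki : ¬ IsReal φ k) :
    (∀ K : IntermediateField ℚ Qb, k ≤ K → FiniteDimensional ℚ K → GaloisOver k K → AbelianOver k K →
      MuVanishes p K) ↔
    (∀ F : IntermediateField ℚ Qb, FiniteDimensional ℚ F → GaloisOver ⊥ F → AbelianOver ⊥ F →
      MuVanishes p F) ∧
    (∀ E : IntermediateField ℚ Qb, FiniteDimensional ℚ E → IsReal φ E → GaloisOver ⊥ (E ⊔ k) →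
      AbelianOver k (E ⊔ k) → MuVanishes p E) := by
  have hkfd : FiniteDimensional ℚ k := FiniteDimensional.of_finrank_pos (by rw [hk]; exact Nat.two_pos)
  have htop : ∀ σ : Gal(Qb/ℚ), σ ∈ (⊥ : IntermediateField ℚ Qb).fixingSubgroup := fun σ => by
    rw [IntermediateField.fixingSubgroup_bot]
    trivial
  constructor
  · intro h
    refine ⟨fun F hF hG hA => ?_, fun E hE _ hG hA => ?_⟩
    · have hFk : FiniteDimensional ℚ ↥(F ⊔ k) := inferInstance
      refine mono (le_sup_left : F ≤ F ⊔ k) hFk (h (F ⊔ k) le_sup_right hFk ?_ ?_)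
      · intro σ hσ
        refine Pool.Agent.Helper832_MU.map_sup_le σ (F ⊔ k)
          (fun x hx => (le_sup_left : F ≤ F ⊔ k) (hG σ (htop σ) x hx)) (fun x hx => ?_)
        rw [(IntermediateField.mem_fixingSubgroup_iff _ _).1 hσ x hx]
        exact (le_sup_right : k ≤ F ⊔ k) hx
      · intro σ hσ τ hτ
        have h1 : F ⊔ k ≤ Pool.Agent.Helper832_MU.eqF (σ * τ) (τ * σ) := by
          refine sup_le (fun x hx => hA σ (htop σ) τ (htop τ) x hx) (fun x hx => ?_)
          show σ (τ x) = τ (σ x)
          have h2 := (IntermediateField.mem_fixingSubgroup_iff _ _).1 hσ x hx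
          have h3 := (IntermediateField.mem_fixingSubgroup_iff _ _).1 hτ x hx
          rw [h3, h2, h3]
        exact fun x hx => h1 hx
    · have hEk : FiniteDimensional ℚ ↥(E ⊔ k) := inferInstance
      exact mono (le_sup_left : E ≤ E ⊔ k) hEk
        (h (E ⊔ k) le_sup_right hEk (fun σ _ => hG σ (htop σ)) hA)
  · rintro ⟨h1, h2⟩ K hkK hK hG hA
    refine mu_iff.1 (Pool.Agent.Helper832_MU.quad_detect hp Pool.Agent.Helper832_MU.unrG_conj
      Pool.Agent.Helper832_MU.unrG_le φ k hk (fun h => hki fun x hx => h hx) K hkK hK hG hA ?_ ?_)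
    · exact fun F hF hFG hFA => mu_iff.2 (h1 F hF (fun σ _ => hFG σ) (fun σ _ τ _ => hFA σ τ))
    · exact fun E hE hEr hEG hEA => mu_iff.2 (h2 E hE (fun x hx => hEr hx) (fun σ _ => hEG σ) hEA)

end Pool.Agent.Results.MP_b78433_nt.RealFields
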